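import Pool.Agent.CT.PT

/-!
# Reductions, NP and PSPACE

Languages are sets of bit strings. Turing machines are Mathlib's machines `TM0` (finite alphabet,
finite set of states); the input is written letter by letter.
-/

namespace Pool.Agent.CT

open Turing

/-- `A` is reducible to `B` by a function computable in polynomial time. -/
def Red (A B : Set (List Bool)) : Prop :=
  ∃ f : List Bool → List Bool, PT f ∧ ∀ w, w ∈ A ↔ f w ∈ B

theorem Red.trans {A B C : Set (List Bool)} (h : Red A B) (h' : Red B C) : Red A C := by
  obtain ⟨f, hf, h1⟩ := h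
  obtain ⟨g, hg, h2⟩ := h'
  exact ⟨fun w => g (f w), hg.comp hf, fun w => (h1 w).trans (h2 _)⟩

/-- The form in which reductions are handed in. -/
theorem Red.poly {A B : Set (List Bool)} (h : Red A B) : ∃ f : List Bool → List Bool,
    Nonempty (TM2ComputableInPolyTime (id : List Bool → List Bool)
      (id : List Bool → List Bool) f) ∧ ∀ w, w ∈ A ↔ f w ∈ B := by
  obtain ⟨f, hf, h⟩ := h
  exact ⟨f, hf.poly, h⟩

/-- NP: the languages `L` for which there are a Turing machine `M`, codes `enc` of the letters `0`,
`1` and of the separator by tape symbols, a set `acc` of accepting states and polynomials `p`, `q`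
such that a word `w` is in `L` if and only if there is a certificate `c` of length `p |w|` such that
`M`, started on `w # c`, halts within `q |w|` steps in an accepting state. -/
def NP : Set (Set (List Bool)) :=
  {L | ∃ (Γ Λ : Type) (_ : Inhabited Γ) (_ : Inhabited Λ) (_ : Finite Γ) (_ : Finite Λ)
    (M : TM0.Machine Γ Λ) (enc : Option Bool → Γ) (acc : Set Λ) (p q : Polynomial ℕ),
    ∀ w : List Bool, w ∈ L ↔ ∃ c : List Bool, c.length = p.eval w.length ∧
      ∃ cf : TM0.Cfg Γ Λ, Nonempty (StateTransition.EvalsToInTime (TM0.step M)
        (TM0.init ((w.map some ++ none :: c.map some).map enc)) (some cf) (q.eval w.length)) ∧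
      TM0.step M cf = none ∧ cf.q ∈ acc}

/-- PSPACE: the languages `L` for which there are a Turing machine `M`, codes `enc` of the letters
by tape symbols, a set `acc` of accepting states and a polynomial `p` such that for every word `w`
the machine, started on `w`, halts, in an accepting state if and only if `w ∈ L`, and in all
configurations it reaches all cells at distance more than `p |w|` from the head are blank. -/
def PSPACE : Set (Set (List Bool)) :=
  {L | ∃ (Γ Λ : Type) (_ : Inhabited Γ) (_ : Inhabited Λ) (_ : Finite Γ) (_ : Finite Λ)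
    (M : TM0.Machine Γ Λ) (enc : Bool → Γ) (acc : Set Λ) (p : Polynomial ℕ),
    ∀ w : List Bool,
      (∃ cf : TM0.Cfg Γ Λ, StateTransition.Reaches (TM0.step M) (TM0.init (w.map enc)) cf ∧
        TM0.step M cf = none ∧ (w ∈ L ↔ cf.q ∈ acc)) ∧
      ∀ cf : TM0.Cfg Γ Λ, StateTransition.Reaches (TM0.step M) (TM0.init (w.map enc)) cf →
        ∀ i : ℤ, ((p.eval w.length : ℕ) : ℤ) < |i| → cf.Tape.nth i = default}

/-- NP-hardness with respect to polynomial time many-one reductions. -/
def NPHard (A : Set (List Bool)) : Prop := ∀ L ∈ NP, Red L A

/-- PSPACE-hardness with respect to polynomial time many-one reductions. -/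
def PSPACEHard (A : Set (List Bool)) : Prop := ∀ L ∈ PSPACE, Red L A

theorem NPHard.of_red {A B : Set (List Bool)} (h : NPHard A) (h' : Red A B) : NPHard B :=
  fun L hL => (h L hL).trans h'

theorem PSPACEHard.of_red {A B : Set (List Bool)} (h : PSPACEHard A) (h' : Red A B) :
    PSPACEHard B :=
  fun L hL => (h L hL).trans h'

end Pool.Agent.CT
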