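import Pool.Agent.MEternal.FPMain

/-!
# Polynomial time functions and reductions

`PT f`: the function `f` on bit strings is computed by a stack program in polynomial time. Such
functions are closed under composition (`PT.comp`) and are computable in polynomial time in the
sense of Mathlib (`PT.poly`).
-/

namespace Pool.Agent.CT

open Pool.Agent.MEternal SP

/-- `f` is computed by a stack program within a polynomial number of steps. -/
def PT (f : List Bool → List Bool) : Prop :=
  ∃ (K : Type) (_ : Fintype K) (_ : DecidableEq K) (p : SP K) (k₀ k₁ : K) (q : Polynomial ℕ),
    ∀ w : List Bool, ∃ n ≤ q.eval w.length,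
      Run p (Function.update (fun _ => []) k₀ w) (Function.update (fun _ => []) k₁ (f w)) n

theorem PT.poly {f : List Bool → List Bool} (h : PT f) :
    Nonempty (Turing.TM2ComputableInPolyTime (id : List Bool → List Bool)
      (id : List Bool → List Bool) f) := by
  obtain ⟨K, _, _, p, k₀, k₁, q, h⟩ := h
  exact toPolyTime p k₀ k₁ f q h

/-- Renaming the stacks. -/
def ren {K K' : Type} (e : K → K') : SP K → SP K'
  | .skip => .skip
  | .push k b => .push (e k) b
  | .pop k p q r => .pop (e k) (ren e p) (ren e q) (ren e r)
  | .seq p q => .seq (ren e p) (ren e q)
  | .loop k p => .loop (e k) (ren e p)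
  | .each k p q => .each (e k) (ren e p) (ren e q)

/-- The stacks in the range of `e` contain `s`, the others contain `t`. -/
noncomputable def mix {K K' : Type} (e : K → K') (s : K → List Bool) (t : K' → List Bool) :
    K' → List Bool := by
  classical
  exact fun k => if h : ∃ k0, e k0 = k then s h.choose else t k

section ren

variable {K K' : Type} {e : K → K'}

theorem mix_apply (he : Function.Injective e) (s : K → List Bool) (t : K' → List Bool) (k : K) :
    mix e s t (e k) = s k := by
  classical
  unfold mix
  have h : ∃ k0, e k0 = e k := ⟨k, rfl⟩
  rw [dif_pos h]
  exact congrArg s (he h.choose_spec)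

theorem mix_apply_of_notMem (s : K → List Bool) (t : K' → List Bool) {k : K'}
    (h : ¬ ∃ k0, e k0 = k) : mix e s t k = t k := by
  classical
  unfold mix
  rw [dif_neg h]

variable [DecidableEq K] [DecidableEq K']

theorem mix_update (he : Function.Injective e) (s : K → List Bool) (t : K' → List Bool) (k : K)
    (l : List Bool) : mix e (Function.update s k l) t = Function.update (mix e s t) (e k) l := by
  classical
  funext k'
  by_cases h : ∃ k0, e k0 = k'
  · obtain ⟨k0, rfl⟩ := h
    rw [mix_apply he]
    by_cases hk : k0 = k
    · subst hk
      simp
    · rw [Function.update_of_ne hk, Function.update_of_ne (fun h => hk (he h)), mix_apply he]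
  · rw [mix_apply_of_notMem _ _ h, Function.update_of_ne (fun hh => h ⟨k, hh.symm⟩),
      mix_apply_of_notMem _ _ h]

theorem run_ren (he : Function.Injective e) {p : SP K} {s s' : K → List Bool} {n : ℕ}
    (h : Run p s s' n) (t : K' → List Bool) : Run (ren e p) (mix e s t) (mix e s' t) n := by
  induction h with
  | skip s => exact Run.skip _
  | push k b s =>
    rw [mix_update he]
    have := Run.push (e k) b (mix e s t)
    rwa [mix_apply he] at this
  | pop_nil h hr ih => exact Run.pop_nil (by rw [mix_apply he]; exact h) ih
  | pop_false h hr ih =>
    rw [mix_update he] at ih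
    exact Run.pop_false (by rw [mix_apply he]; exact h) ih
  | pop_true h hr ih =>
    rw [mix_update he] at ih
    exact Run.pop_true (by rw [mix_apply he]; exact h) ih
  | seq h h' ih ih' => exact Run.seq ih ih'
  | loop_nil h => exact Run.loop_nil (by rw [mix_apply he]; exact h)
  | loop_false h =>
    rw [mix_update he]
    exact Run.loop_false (by rw [mix_apply he]; exact h)
  | loop_true h hr hr' ih ih' =>
    rw [mix_update he] at ih
    exact Run.loop_true (by rw [mix_apply he]; exact h) ih ih'
  | each_nil h => exact Run.each_nil (by rw [mix_apply he]; exact h)
  | each_false h hr hr' ih ih' =>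
    rw [mix_update he] at ih
    exact Run.each_false (by rw [mix_apply he]; exact h) ih ih'
  | each_true h hr hr' ih ih' =>
    rw [mix_update he] at ih
    exact Run.each_true (by rw [mix_apply he]; exact h) ih ih'

end ren

theorem eval_le_eval (q : Polynomial ℕ) {a b : ℕ} (h : a ≤ b) : q.eval a ≤ q.eval b := by
  induction q using Polynomial.induction_on' with
  | add p q hp hq => simpa [Polynomial.eval_add] using Nat.add_le_add hp hq
  | monomial k c =>
    simp only [Polynomial.eval_monomial]
    exact Nat.mul_le_mul_left _ (Nat.pow_le_pow_left h k)

/-- The total length of the stacks. -/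
theorem run_length {K : Type} [DecidableEq K] [Fintype K] {p : SP K} {s s' : K → List Bool} {n : ℕ}
    (h : Run p s s' n) : ∑ k, (s' k).length ≤ ∑ k, (s k).length + n := by
  classical
  have upd : ∀ (s : K → List Bool) (k : K) (l : List Bool), l.length ≤ (s k).length →
      ∑ i, ((Function.update s k l) i).length ≤ ∑ i, (s i).length := by
    intro s k l hl
    apply Finset.sum_le_sum
    intro i _
    by_cases hi : i = k
    · subst hi; simpa using hl
    · rw [Function.update_of_ne hi]
  have upd1 : ∀ (s : K → List Bool) (k : K) (b : Bool),
      ∑ i, ((Function.update s k (b :: s k)) i).length ≤ ∑ i, (s i).length + 1 := by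
    intro s k b
    have h1 : ∀ i, ((Function.update s k (b :: s k)) i).length =
        (s i).length + if i = k then 1 else 0 := by
      intro i
      by_cases hi : i = k
      · subst hi; simp
      · rw [Function.update_of_ne hi, if_neg hi, add_zero]
    simp only [h1, Finset.sum_add_distrib, Finset.sum_ite_eq', Finset.mem_univ, if_true, le_refl]
  induction h with
  | skip s => simp
  | push k b s => exact upd1 s k b
  | pop_nil h hr ih => omega
  | @pop_false k e f t s s' n l h hr ih =>
    have := upd s k l (by rw [h]; simp)
    omega
  | @pop_true k e f t s s' n l h hr ih =>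
    have := upd s k l (by rw [h]; simp)
    omega
  | seq h h' ih ih' => omega
  | loop_nil h => omega
  | @loop_false k p s l h =>
    have := upd s k l (by rw [h]; simp)
    omega
  | @loop_true k p s s' s'' n m l h hr hr' ih ih' =>
    have := upd s k l (by rw [h]; simp)
    omega
  | each_nil h => omega
  | @each_false k f t s s' s'' n m l h hr hr' ih ih' =>
    have := upd s k l (by rw [h]; simp)
    omega
  | @each_true k f t s s' s'' n m l h hr hr' ih ih' =>
    have := upd s k l (by rw [h]; simp)
    omega

theorem length_of_run {K : Type} [DecidableEq K] [Fintype K] {p : SP K} {k₀ k₁ : K}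
    {w v : List Bool} {n : ℕ}
    (h : Run p (Function.update (fun _ => []) k₀ w) (Function.update (fun _ => []) k₁ v) n) :
    v.length ≤ w.length + n := by
  classical
  have h1 := run_length h
  have h2 : ∀ (k : K) (l : List Bool),
      ∑ i, ((Function.update (fun _ : K => ([] : List Bool)) k l) i).length = l.length := by
    intro k l
    rw [Finset.sum_eq_single k]
    · simp
    · intro i _ hi
      rw [Function.update_of_ne hi]
      rfl
    · simp
  rw [h2, h2] at h1
  exact h1

/-- Moving a stack onto an empty one reverses it. -/
theorem run_move {K : Type} [DecidableEq K] {a b : K} (hab : a ≠ b) :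
    ∀ (l : List Bool) (s : K → List Bool), s a = l →
      Run (.each a (.push b false) (.push b true)) s
        (Function.update (Function.update s a []) b (l.reverse ++ s b)) (2 * l.length + 1) := by
  intro l
  induction l with
  | nil =>
    intro s hs
    have h1 : Function.update (Function.update s a []) b (([] : List Bool).reverse ++ s b) = s := by
      funext k
      by_cases hk : k = b
      · subst hk; simp
      · rw [Function.update_of_ne hk]
        by_cases hk' : k = a
        · subst hk'; simp [hs]
        · rw [Function.update_of_ne hk']
    rw [h1]
    exact Run.each_nil hs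
  | cons x l ih =>
    intro s hs
    have key : ∀ x : Bool, s a = x :: l →
        Run (.push b x) (Function.update s a l)
          (Function.update (Function.update s a l) b (x :: s b)) 1 ∧
        Run (.each a (.push b false) (.push b true))
          (Function.update (Function.update s a l) b (x :: s b))
          (Function.update (Function.update s a []) b ((x :: l).reverse ++ s b))
          (2 * l.length + 1) := by
      intro x _
      constructor
      · have := Run.push b x (Function.update s a l)
        rwa [Function.update_of_ne hab.symm] at this
      · have h2 := ih (Function.update (Function.update s a l) b (x :: s b))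
          (by rw [Function.update_of_ne hab, Function.update_self])
        rw [Function.update_self] at h2
        convert h2 using 1
        funext k
        by_cases hk : k = b
        · subst hk; simp
        · rw [Function.update_of_ne hk, Function.update_of_ne hk]
          by_cases hk' : k = a
          · subst hk'; simp
          · rw [Function.update_of_ne hk', Function.update_of_ne hk', Function.update_of_ne hk,
              Function.update_of_ne hk']
    obtain ⟨h1, h2⟩ := key x hs
    have e : 2 * (x :: l).length + 1 = 1 + (2 * l.length + 1) + 1 := by
      simp only [List.length_cons]; ring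
    rw [e]
    cases x with
    | false => exact Run.each_false hs h1 h2
    | true => exact Run.each_true hs h1 h2

theorem PT.comp {f g : List Bool → List Bool} (hg : PT g) (hf : PT f) : PT fun w => g (f w) := by
  classical
  obtain ⟨K, _, _, p, k₀, k₁, q, hp⟩ := hf
  obtain ⟨K', _, _, p', k₀', k₁', q', hp'⟩ := hg
  let e : K → (K ⊕ K') ⊕ Unit := fun k => .inl (.inl k)
  let e' : K' → (K ⊕ K') ⊕ Unit := fun k => .inl (.inr k)
  have he : Function.Injective e := fun a b h => by simpa [e] using h
  have he' : Function.Injective e' := fun a b h => by simpa [e'] using h
  let T : (K ⊕ K') ⊕ Unit := .inr ()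
  have hz : ∀ (k : K) (l : List Bool),
      mix e (Function.update (fun _ => []) k l) (fun _ => []) =
        Function.update (fun _ => []) (e k) l := by
    intro k l
    rw [mix_update he]
    congr 1
    funext k'
    by_cases h : ∃ k0, e k0 = k'
    · obtain ⟨k0, rfl⟩ := h
      rw [mix_apply he]
    · rw [mix_apply_of_notMem _ _ h]
  have hz' : ∀ (k : K') (l : List Bool),
      mix e' (Function.update (fun _ => []) k l) (fun _ => []) =
        Function.update (fun _ => []) (e' k) l := by
    intro k l
    rw [mix_update he']
    congr 1
    funext k'
    by_cases h : ∃ k0, e' k0 = k'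
    · obtain ⟨k0, rfl⟩ := h
      rw [mix_apply he']
    · rw [mix_apply_of_notMem _ _ h]
  have mv : ∀ (a b : (K ⊕ K') ⊕ Unit), a ≠ b → ∀ l : List Bool,
      Run (.each a (.push b false) (.push b true)) (Function.update (fun _ => []) a l)
        (Function.update (fun _ => []) b l.reverse) (2 * l.length + 1) := by
    intro a b hab l
    have h1 := run_move hab l (Function.update (fun _ => []) a l) (by simp)
    convert h1 using 1
    funext k
    by_cases hk : k = b
    · subst hk
      rw [Function.update_self, Function.update_self, Function.update_of_ne hab.symm]
      simp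
    · rw [Function.update_of_ne hk, Function.update_of_ne hk]
      by_cases hk' : k = a
      · subst hk'; simp
      · rw [Function.update_of_ne hk', Function.update_of_ne hk']
  refine ⟨(K ⊕ K') ⊕ Unit, inferInstance, inferInstance,
    .seq (ren e p) (.seq (.each (e k₁) (.push T false) (.push T true))
      (.seq (.each T (.push (e' k₀') false) (.push (e' k₀') true)) (ren e' p'))),
    e k₀, e' k₁', q + (4 * (Polynomial.X + q) + 2) + q'.comp (Polynomial.X + q), ?_⟩
  intro w
  obtain ⟨n, hn, hr⟩ := hp w
  obtain ⟨n', hn', hr'⟩ := hp' (f w)
  have hlen := length_of_run hr
  have h1 := run_ren he hr (fun _ => [])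
  rw [hz, hz] at h1
  have h2 := run_ren he' hr' (fun _ => [])
  rw [hz', hz'] at h2
  have h3 := mv (e k₁) T (by simp [e, T]) (f w)
  have h4 := mv T (e' k₀') (by simp [e', T]) (f w).reverse
  rw [List.reverse_reverse] at h4
  have h5 := Run.seq h1 (Run.seq h3 (Run.seq h4 h2))
  refine ⟨_, ?_, h5⟩
  have h6 : q'.eval (f w).length ≤ q'.eval (w.length + q.eval w.length) :=
    eval_le_eval q' (hlen.trans (by omega))
  simp only [Polynomial.eval_add, Polynomial.eval_mul, Polynomial.eval_comp, Polynomial.eval_X,
    Polynomial.eval_ofNat, List.length_reverse]
  omega

end Pool.Agent.CT
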