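import Pool.Agent.MEternal.Tests
import Pool.Agent.CT.PT

/-!
# Functions written by loop programs

The variables of the programs are `env 0, env 1, ...`; `env 0` is the length of the input `w`.

* `Ex f`: `f env` is given by an arithmetical expression (variables, constants, `+`, `*`, `- 1`).
* `Te φ`: `φ w env` is given by a test (comparison of expressions, bits `w.getD (f env) false`,
  Boolean combinations).
* `Out M S g`: `g w env` is written by a loop program whose loop variables are in `S` and whose
  loop bounds are at most `M (env 0)`.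

`Out.pt`: the functions `fun w => g w (en w.length)` are computable in polynomial time.
-/

namespace Pool.Agent.CT

open Pool.Agent.MEternal

/-- Assignments. -/
abbrev Env : Type := ℕ → ℕ

/-- The assignment before the start: variable `0` is the length of the input, all others are `0`. -/
def en (n : ℕ) : Env := fun i => if i = 0 then n else 0

section lift

variable {R R' : ℕ}

def lE (h : R ≤ R') : Expr R → Expr R'
  | .var i => .var (Fin.castLE h i)
  | .const c => .const c
  | .add e f => .add (lE h e) (lE h f)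
  | .mul e f => .mul (lE h e) (lE h f)
  | .pred e => .pred (lE h e)

def lB (h : R ≤ R') : BExpr R → BExpr R'
  | .tt => .tt
  | .lt e f => .lt (lE h e) (lE h f)
  | .bit e => .bit (lE h e)
  | .and b c => .and (lB h b) (lB h c)
  | .or b c => .or (lB h b) (lB h c)
  | .not b => .not (lB h b)

def lP (h : R ≤ R') : FProg R → FProg R'
  | .nop => .nop
  | .emit b => .emit b
  | .seq p q => .seq (lP h p) (lP h q)
  | .ite b p q => .ite (lB h b) (lP h p) (lP h q)
  | .loopUp i e p => .loopUp (Fin.castLE h i) (lE h e) (lP h p)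

theorem lE_val (h : R ≤ R') (e : Expr R) (env : Fin R' → ℕ) :
    (lE h e).val env = e.val fun i => env (Fin.castLE h i) := by
  induction e with
  | var i => rfl
  | const c => rfl
  | add e f ihe ihf => simp only [lE, Expr.val, ihe, ihf]
  | mul e f ihe ihf => simp only [lE, Expr.val, ihe, ihf]
  | pred e ihe => simp only [lE, Expr.val, ihe]

theorem lB_val (h : R ≤ R') (w : List Bool) (b : BExpr R) (env : Fin R' → ℕ) :
    (lB h b).val w env = b.val w fun i => env (Fin.castLE h i) := by
  induction b with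
  | tt => rfl
  | lt e f => simp only [lB, BExpr.val, lE_val]
  | bit e => simp only [lB, BExpr.val, lE_val]
  | and b c ihb ihc => simp only [lB, BExpr.val, ihb, ihc]
  | or b c ihb ihc => simp only [lB, BExpr.val, ihb, ihc]
  | not b ihb => simp only [lB, BExpr.val, ihb]

theorem castLE_update (h : R ≤ R') (env : Fin R' → ℕ) (i : Fin R) (v : ℕ) :
    (fun j : Fin R => Function.update env (Fin.castLE h i) v (Fin.castLE h j)) =
      Function.update (fun j : Fin R => env (Fin.castLE h j)) i v := by
  funext j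
  by_cases hj : j = i
  · subst hj; simp
  · rw [Function.update_of_ne hj, Function.update_of_ne]
    intro hh
    exact hj (Fin.castLE_injective h hh)

theorem lP_output (h : R ≤ R') (w : List Bool) (p : FProg R) : ∀ env : Fin R' → ℕ,
    (lP h p).output w env = p.output w fun i => env (Fin.castLE h i) := by
  induction p with
  | nop => intro env; rfl
  | emit b => intro env; rfl
  | seq p q ihp ihq => intro env; simp only [lP, FProg.output, ihp, ihq]
  | ite b p q ihp ihq => intro env; simp only [lP, FProg.output, ihp, ihq, lB_val]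
  | loopUp i e p ih =>
    intro env
    simp only [lP, FProg.output, ih, lE_val, castLE_update]

theorem lP_safe (h : R ≤ R') {m : ℕ} (p : FProg R) : ∀ env : Fin R' → ℕ,
    p.Safe m (fun i => env (Fin.castLE h i)) → (lP h p).Safe m env := by
  induction p with
  | nop => intro env _; trivial
  | emit b => intro env _; trivial
  | seq p q ihp ihq => intro env hs; exact ⟨ihp env hs.1, ihq env hs.2⟩
  | ite b p q ihp ihq => intro env hs; exact ⟨ihp env hs.1, ihq env hs.2⟩
  | loopUp i e p ih =>
    intro env hs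
    refine ⟨hs.1, ?_, fun v hv => ?_⟩
    · rw [lE_val]; exact hs.2.1
    · apply ih
      rw [castLE_update]
      exact hs.2.2 v (by rwa [lE_val] at hv)

end lift

/-- The restriction of an assignment. -/
abbrev rs (R : ℕ) (env : Env) : Fin R → ℕ := fun i => env i

theorem rs_update {R : ℕ} (env : Env) (i : ℕ) (hi : i < R) (v : ℕ) :
    rs R (Function.update env i v) = Function.update (rs R env) ⟨i, hi⟩ v := by
  funext j
  by_cases hj : j = ⟨i, hi⟩
  · subst hj; simp [rs]
  · rw [Function.update_of_ne hj]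
    have : (j : ℕ) ≠ i := fun hh => hj (Fin.ext hh)
    simp only [rs, Function.update_of_ne this]

/-- The function is given by an expression. -/
def Ex (f : Env → ℕ) : Prop := ∃ (R : ℕ) (e : Expr R), ∀ env, e.val (rs R env) = f env

/-- The relation is given by a test. -/
def Te (φ : List Bool → Env → Prop) : Prop :=
  ∃ (R : ℕ) (b : BExpr R), ∀ w env, b.val w (rs R env) = true ↔ φ w env

theorem Ex.lift {f : Env → ℕ} (h : Ex f) : ∃ R0, ∀ R ≥ R0, ∃ e : Expr R,
    ∀ env, e.val (rs R env) = f env := by
  obtain ⟨R0, e, he⟩ := h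
  exact ⟨R0, fun R hR => ⟨lE hR e, fun env => by rw [lE_val]; exact he env⟩⟩

theorem Te.lift {φ : List Bool → Env → Prop} (h : Te φ) : ∃ R0, ∀ R ≥ R0, ∃ b : BExpr R,
    ∀ w env, b.val w (rs R env) = true ↔ φ w env := by
  obtain ⟨R0, e, he⟩ := h
  exact ⟨R0, fun R hR => ⟨lB hR e, fun w env => by rw [lB_val]; exact he w env⟩⟩

theorem Ex.congr {f g : Env → ℕ} (h : Ex f) (h' : ∀ env, g env = f env) : Ex g := by
  obtain ⟨R, e, he⟩ := h
  exact ⟨R, e, fun env => (he env).trans (h' env).symm⟩

theorem Ex.var (i : ℕ) : Ex fun env => env i :=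
  ⟨i + 1, .var ⟨i, Nat.lt_succ_self i⟩, fun _ => rfl⟩

theorem Ex.const (c : ℕ) : Ex fun _ => c := ⟨0, .const c, fun _ => rfl⟩

theorem Ex.add {f g : Env → ℕ} (hf : Ex f) (hg : Ex g) : Ex fun env => f env + g env := by
  obtain ⟨R1, h1⟩ := hf.lift
  obtain ⟨R2, h2⟩ := hg.lift
  obtain ⟨e, he⟩ := h1 (max R1 R2) (le_max_left _ _)
  obtain ⟨e', he'⟩ := h2 (max R1 R2) (le_max_right _ _)
  exact ⟨_, .add e e', fun env => by simp only [Expr.val, he, he']⟩

theorem Ex.mul {f g : Env → ℕ} (hf : Ex f) (hg : Ex g) : Ex fun env => f env * g env := by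
  obtain ⟨R1, h1⟩ := hf.lift
  obtain ⟨R2, h2⟩ := hg.lift
  obtain ⟨e, he⟩ := h1 (max R1 R2) (le_max_left _ _)
  obtain ⟨e', he'⟩ := h2 (max R1 R2) (le_max_right _ _)
  exact ⟨_, .mul e e', fun env => by simp only [Expr.val, he, he']⟩

theorem Ex.pred {f : Env → ℕ} (hf : Ex f) : Ex fun env => f env - 1 := by
  obtain ⟨R, e, he⟩ := hf
  exact ⟨R, .pred e, fun env => by simp only [Expr.val, he]⟩

theorem Ex.sub_const {f : Env → ℕ} (hf : Ex f) (k : ℕ) : Ex fun env => f env - k := by
  induction k with
  | zero => exact hf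
  | succ k ih => exact ih.pred.congr fun env => by omega

theorem Ex.pow {f : Env → ℕ} (hf : Ex f) (k : ℕ) : Ex fun env => f env ^ k := by
  induction k with
  | zero => exact (Ex.const 1).congr fun env => by simp
  | succ k ih => exact (ih.mul hf).congr fun env => by rw [pow_succ]

theorem Ex.eval {f : Env → ℕ} (hf : Ex f) (p : Polynomial ℕ) : Ex fun env => p.eval (f env) := by
  induction p using Polynomial.induction_on' with
  | add p q hp hq => exact (hp.add hq).congr fun env => by simp [Polynomial.eval_add]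
  | monomial k a =>
    exact ((Ex.const a).mul (hf.pow k)).congr fun env => by simp [Polynomial.eval_monomial]

theorem Te.congr {φ ψ : List Bool → Env → Prop} (h : Te φ) (h' : ∀ w env, ψ w env ↔ φ w env) :
    Te ψ := by
  obtain ⟨R, b, hb⟩ := h
  exact ⟨R, b, fun w env => (hb w env).trans (h' w env).symm⟩

theorem Te.lt {f g : Env → ℕ} (hf : Ex f) (hg : Ex g) : Te fun _ env => f env < g env := by
  obtain ⟨R1, h1⟩ := hf.lift
  obtain ⟨R2, h2⟩ := hg.lift
  obtain ⟨e, he⟩ := h1 (max R1 R2) (le_max_left _ _)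
  obtain ⟨e', he'⟩ := h2 (max R1 R2) (le_max_right _ _)
  exact ⟨_, .lt e e', fun w env => by simp only [BExpr.val, he, he', decide_eq_true_eq]⟩

theorem Te.not {φ : List Bool → Env → Prop} (h : Te φ) : Te fun w env => ¬ φ w env := by
  obtain ⟨R, b, hb⟩ := h
  refine ⟨R, .not b, fun w env => ?_⟩
  have h1 := hb w env
  simp only [BExpr.val, ← h1, Bool.not_eq_true', Bool.not_eq_true]

theorem Te.and {φ ψ : List Bool → Env → Prop} (h : Te φ) (h' : Te ψ) :
    Te fun w env => φ w env ∧ ψ w env := by
  obtain ⟨R1, h1⟩ := h.lift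
  obtain ⟨R2, h2⟩ := h'.lift
  obtain ⟨e, he⟩ := h1 (max R1 R2) (le_max_left _ _)
  obtain ⟨e', he'⟩ := h2 (max R1 R2) (le_max_right _ _)
  refine ⟨_, .and e e', fun w env => ?_⟩
  have h1 := he w env
  have h2 := he' w env
  simp only [BExpr.val, ← h1, ← h2, Bool.and_eq_true]

theorem Te.or {φ ψ : List Bool → Env → Prop} (h : Te φ) (h' : Te ψ) :
    Te fun w env => φ w env ∨ ψ w env := by
  obtain ⟨R1, h1⟩ := h.lift
  obtain ⟨R2, h2⟩ := h'.lift
  obtain ⟨e, he⟩ := h1 (max R1 R2) (le_max_left _ _)
  obtain ⟨e', he'⟩ := h2 (max R1 R2) (le_max_right _ _)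
  refine ⟨_, .or e e', fun w env => ?_⟩
  have h1 := he w env
  have h2 := he' w env
  simp only [BExpr.val, ← h1, ← h2, Bool.or_eq_true]

theorem Te.le {f g : Env → ℕ} (hf : Ex f) (hg : Ex g) : Te fun _ env => f env ≤ g env :=
  (Te.lt hg hf).not.congr fun _ _ => by simp

theorem Te.eq {f g : Env → ℕ} (hf : Ex f) (hg : Ex g) : Te fun _ env => f env = g env :=
  ((Te.le hf hg).and (Te.le hg hf)).congr fun _ _ => by omega

theorem Te.ne {f g : Env → ℕ} (hf : Ex f) (hg : Ex g) : Te fun _ env => f env ≠ g env :=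
  (Te.eq hf hg).not

theorem Te.const (p : Prop) : Te fun _ _ => p := by
  by_cases h : p
  · exact ⟨0, .tt, fun w env => by simp [BExpr.val, h]⟩
  · exact ⟨0, .not .tt, fun w env => by simp [BExpr.val, h]⟩

theorem Te.imp {φ ψ : List Bool → Env → Prop} (h : Te φ) (h' : Te ψ) :
    Te fun w env => φ w env → ψ w env :=
  (h.not.or h').congr fun _ _ => by tauto

theorem Te.iff {φ ψ : List Bool → Env → Prop} (h : Te φ) (h' : Te ψ) :
    Te fun w env => (φ w env ↔ ψ w env) :=
  ((h.imp h').and (h'.imp h)).congr fun _ _ => by tauto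

theorem Te.bit {f : Env → ℕ} (hf : Ex f) : Te fun w env => w.getD (f env) false = true := by
  obtain ⟨R, e, he⟩ := hf
  exact ⟨R, .bit e, fun w env => by simp only [BExpr.val, he]⟩

theorem Te.exists_finset {ι : Type*} (s : Finset ι) {φ : ι → List Bool → Env → Prop}
    (h : ∀ i ∈ s, Te (φ i)) : Te fun w env => ∃ i ∈ s, φ i w env := by
  classical
  induction s using Finset.induction_on with
  | empty => exact (Te.const False).congr fun _ _ => by simp
  | insert i s hi ih =>
    exact ((h i (by simp)).or (ih fun j hj => h j (by simp [hj]))).congr fun _ _ => by simp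

theorem Te.exists {ι : Type*} [Finite ι] {φ : ι → List Bool → Env → Prop} (h : ∀ i, Te (φ i)) :
    Te fun w env => ∃ i, φ i w env := by
  cases nonempty_fintype ι
  exact (Te.exists_finset Finset.univ fun i _ => h i).congr fun _ _ => by simp

theorem Te.forall {ι : Type*} [Finite ι] {φ : ι → List Bool → Env → Prop} (h : ∀ i, Te (φ i)) :
    Te fun w env => ∀ i, φ i w env :=
  (Te.exists fun i => (h i).not).not.congr fun _ _ => by simp

/-- The function is the output of a loop program with loop variables in `S` and bounds at most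
`M (env 0)`. -/
def Out (M : ℕ → ℕ) (S : Finset ℕ) (g : List Bool → Env → List Bool) : Prop :=
  ∃ (R : ℕ) (p : FProg R), 0 < R ∧ (∀ w env, p.output w (rs R env) = g w env) ∧
    ∀ env : Env, (∀ i ∈ S, env i = 0) → p.Safe (M (env 0)) (rs R env)

variable {M : ℕ → ℕ} {S S' : Finset ℕ} {g g' : List Bool → Env → List Bool}

theorem Out.lift (h : Out M S g) : ∃ R0, ∀ R ≥ R0, 0 < R ∧ ∃ p : FProg R,
    (∀ w env, p.output w (rs R env) = g w env) ∧
    ∀ env : Env, (∀ i ∈ S, env i = 0) → p.Safe (M (env 0)) (rs R env) := by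
  obtain ⟨R0, p, h0, hp, hs⟩ := h
  refine ⟨R0, fun R hR => ⟨by omega, lP hR p, fun w env => ?_, fun env he => ?_⟩⟩
  · rw [lP_output]; exact hp w env
  · exact lP_safe hR p _ (hs env he)

theorem safe_mono {R : ℕ} {p : FProg R} : ∀ {m m' : ℕ} {env : Fin R → ℕ}, p.Safe m env → m ≤ m' →
    p.Safe m' env := by
  induction p with
  | nop => intro m m' env _ _; trivial
  | emit b => intro m m' env _ _; trivial
  | seq p q ihp ihq => intro m m' env h hm; exact ⟨ihp h.1 hm, ihq h.2 hm⟩
  | ite b p q ihp ihq => intro m m' env h hm; exact ⟨ihp h.1 hm, ihq h.2 hm⟩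
  | loopUp i e p ih =>
    intro m m' env h hm
    exact ⟨h.1, h.2.1.trans hm, fun v hv => ih (h.2.2 v hv) hm⟩

theorem Out.congr (h : Out M S g) (h' : ∀ w env, g' w env = g w env) : Out M S g' := by
  obtain ⟨R, p, h0, hp, hs⟩ := h
  exact ⟨R, p, h0, fun w env => (hp w env).trans (h' w env).symm, hs⟩

theorem Out.mono (h : Out M S g) (hS : S ⊆ S') : Out M S' g := by
  obtain ⟨R, p, h0, hp, hs⟩ := h
  exact ⟨R, p, h0, hp, fun env he => hs env fun i hi => he i (hS hi)⟩

theorem Out.const (l : List Bool) : Out M S fun _ _ => l := by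
  induction l with
  | nil => exact ⟨1, .nop, one_pos, fun _ _ => rfl, fun _ _ => trivial⟩
  | cons b l ih =>
    obtain ⟨R, p, h0, hp, hs⟩ := ih
    refine ⟨R, .seq (.emit b) p, h0, fun w env => ?_, fun env he => ⟨trivial, hs env he⟩⟩
    show [b] ++ p.output w _ = b :: l
    rw [hp w env]
    rfl

theorem Out.append (h : Out M S g) (h' : Out M S g') :
    Out M S fun w env => g w env ++ g' w env := by
  obtain ⟨R1, h1⟩ := h.lift
  obtain ⟨R2, h2⟩ := h'.lift
  obtain ⟨h0, p, hp, hs⟩ := h1 (max R1 R2) (le_max_left _ _)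
  obtain ⟨-, p', hp', hs'⟩ := h2 (max R1 R2) (le_max_right _ _)
  refine ⟨_, .seq p p', h0, fun w env => ?_, fun env he => ⟨hs env he, hs' env he⟩⟩
  show p.output w _ ++ p'.output w _ = _
  rw [hp, hp']

theorem Out.cons {b : Bool} (h : Out M S g) : Out M S fun w env => b :: g w env :=
  ((Out.const [b]).append h).congr fun _ _ => rfl

theorem Out.ite {φ : List Bool → Env → Prop} [∀ w env, Decidable (φ w env)] (hφ : Te φ)
    (h : Out M S g) (h' : Out M S g') :
    Out M S fun w env => if φ w env then g w env else g' w env := by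
  obtain ⟨R1, h1⟩ := h.lift
  obtain ⟨R2, h2⟩ := h'.lift
  obtain ⟨R3, h3⟩ := hφ.lift
  obtain ⟨h0, p, hp, hs⟩ := h1 (max (max R1 R2) R3) (by omega)
  obtain ⟨-, p', hp', hs'⟩ := h2 (max (max R1 R2) R3) (by omega)
  obtain ⟨b, hb⟩ := h3 (max (max R1 R2) R3) (by omega)
  refine ⟨_, .ite b p p', h0, fun w env => ?_, fun env he => ⟨hs env he, hs' env he⟩⟩
  show (if b.val w _ then p.output w _ else p'.output w _) =
    if φ w env then g w env else g' w env
  rw [hp, hp']
  by_cases hc : φ w env
  · rw [if_pos hc, if_pos ((hb w env).2 hc)]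
  · rw [if_neg hc, if_neg (fun hh => hc ((hb w env).1 hh))]

/-- One bit, given by a test. -/
theorem Out.dec {φ : List Bool → Env → Prop} [∀ w env, Decidable (φ w env)] (hφ : Te φ) :
    Out M S fun w env => [decide (φ w env)] :=
  (Out.ite hφ (Out.const [true]) (Out.const [false])).congr fun w env => by
    by_cases h : φ w env <;> simp [h]

theorem Out.flatMap_const {α : Type*} (l : List α) {g : α → List Bool → Env → List Bool}
    (h : ∀ a ∈ l, Out M S (g a)) : Out M S fun w env => l.flatMap fun a => g a w env := by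
  induction l with
  | nil => exact (Out.const []).congr fun _ _ => rfl
  | cons a l ih =>
    have h1 := h a (by simp)
    have h2 := ih fun b hb => h b (by simp [hb])
    exact (h1.append h2).congr fun w env => by simp [List.flatMap_cons]

theorem Out.loop {i : ℕ} (hi : i ≠ 0) (hiS : i ∉ S) {b : Env → ℕ} (hb : Ex b)
    (hM : ∀ env, b env ≤ M (env 0)) (h : Out M S g) :
    Out M (insert i S) fun w env =>
      (List.range (b env)).flatMap fun v => g w (Function.update env i v) := by
  obtain ⟨R1, h1⟩ := hb.lift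
  obtain ⟨R2, h2⟩ := h.lift
  obtain ⟨e, he⟩ := h1 (max (max R1 R2) (i + 1)) (by omega)
  obtain ⟨h0, p, hp, hs⟩ := h2 (max (max R1 R2) (i + 1)) (by omega)
  have hiR : i < max (max R1 R2) (i + 1) := by omega
  refine ⟨_, .loopUp ⟨i, hiR⟩ e p, h0, fun w env => ?_,
    fun env hz => ⟨hz i (by simp), ?_, fun v _ => ?_⟩⟩
  · show ((List.range (e.val _)).flatMap fun v => p.output w (Function.update _ _ v)) = _
    rw [he]
    simp only [← rs_update, hp]
  · rw [he]
    exact hM env
  · have h1 := hs (Function.update env i v) fun j hj => by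
      rw [Function.update_of_ne]
      · exact hz j (by simp [hj])
      · rintro rfl
        exact hiS hj
    rw [Function.update_of_ne hi.symm, rs_update _ _ hiR] at h1
    exact h1

/-- A loop whose body is given as a function of the loop variable. -/
theorem Out.loop' {i : ℕ} (hi : i ≠ 0) (hiS : i ∉ S) {b : Env → ℕ} (hb : Ex b)
    (hM : ∀ env, b env ≤ M (env 0)) {g : List Bool → Env → ℕ → List Bool}
    (hg : ∀ w env v v', g w (Function.update env i v') v = g w env v)
    (h : Out M S fun w env => g w env (env i)) :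
    Out M (insert i S) fun w env => (List.range (b env)).flatMap fun v => g w env v := by
  refine (Out.loop hi hiS hb hM h).congr fun w env => ?_
  simp only [Function.update_self, hg]

theorem Out.pt (hS : 0 ∉ S) (hM : Ex fun env => M (env 0)) (h : Out M S g) :
    PT fun w => g w (en w.length) := by
  obtain ⟨R1, h1⟩ := hM.lift
  obtain ⟨R2, h2⟩ := h.lift
  obtain ⟨e, he⟩ := h1 (max R1 R2 + 1) (by omega)
  obtain ⟨-, p, hp, hs⟩ := h2 (max R1 R2 + 1) (by omega)
  have hen : ∀ n, rs (max R1 R2 + 1) (en n) = env0 (max R1 R2) n := by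
    intro n
    funext i
    simp only [rs, en, env0, Fin.ext_iff, Fin.val_zero]
  have hm : ∀ n, n ≤ (Polynomial.X + e.vp).eval n ∧
      p.Safe ((Polynomial.X + e.vp).eval n) (env0 (max R1 R2) n) := by
    intro n
    have h0 : ∀ i, env0 (max R1 R2) n i ≤ n := by
      intro i
      simp only [env0]
      split_ifs <;> omega
    have h1 : M n ≤ e.vp.eval n := by
      have h2 := Expr.val_le h0 e
      rw [← hen, he] at h2
      exact h2
    have h3 : (Polynomial.X + e.vp).eval n = n + e.vp.eval n := by simp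
    rw [h3, ← hen]
    refine ⟨by omega, safe_mono (hs _ fun i hi => ?_) (h1.trans (by omega))⟩
    have : i ≠ 0 := by
      rintro rfl
      exact hS hi
    simp [en, this]
  refine ⟨Reg (max R1 R2 + 1), inferInstance, inferInstance, p.main, .inp, .out,
    (3 * p.tp + 8 * Polynomial.X + 8).comp (Polynomial.X + e.vp), fun w => ?_⟩
  obtain ⟨h1, h2⟩ := hm w.length
  obtain ⟨t, ht, hr⟩ := FProg.main_run p w _ h1 h2
  rw [← hen, hp w _] at hr ht
  refine ⟨t, ht.trans ?_, hr⟩
  have h3 : ∀ i, env0 (max R1 R2) w.length i ≤ (Polynomial.X + e.vp).eval w.length := by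
    intro i
    simp only [env0]
    split_ifs
    · exact h1
    · omega
  have h4 := FProg.output_le w p _ h3 h2
  rw [← hen, hp w _] at h4
  simp only [Polynomial.eval_comp, Polynomial.eval_add, Polynomial.eval_mul,
    Polynomial.eval_ofNat, Polynomial.eval_X] at *
  omega

end Pool.Agent.CT
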